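import Pool.Agent.Lib.MP_c7af3c_ag.T2.H42.Restr

/-!
# MP_c7af3c_ag, project T2, row QINTB (helper42): the bracket, case by case

`Br R q β`: the hypotheses of the row. Three cases: smooth conic (`br_RC`), two lines
(`br_two`), double line (`br_dbl`).
-/

set_option autoImplicit false

namespace Pool.Agent.T2.H42

open Module MvPolynomial

variable {K : Type} [Field K]

/-- the hypotheses of the row -/
structure Br (R : Submodule K (MvPolynomial (Fin 3) K)) (q : MvPolynomial (Fin 3) K)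
    (β : MvPolynomial (Fin 3) K →ₗ[K] MvPolynomial (Fin 3) K) : Prop where
  hR : R20 R
  hq : q.IsHomogeneous 2
  q0 : q ≠ 0
  qR : mulS q 4 ≤ R
  hβ : ∀ A, A.IsHomogeneous 4 → (β A).IsHomogeneous 2
  br : ∀ A A', A.IsHomogeneous 4 → A'.IsHomogeneous 4 → β A * A' - β A' * A ∈ R

variable {R : Submodule K (MvPolynomial (Fin 3) K)} {q : MvPolynomial (Fin 3) K}
  {β : MvPolynomial (Fin 3) K →ₗ[K] MvPolynomial (Fin 3) K}

theorem Br.finR (h : Br R q β) : FiniteDimensional K R :=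
  Submodule.finiteDimensional_of_le h.hR.le

theorem mem_mulS_zero {a F : MvPolynomial (Fin 3) K} (h : F ∈ mulS a 0) : ∃ c, F = a * C c := by
  obtain ⟨b, hb, rfl⟩ := h
  refine ⟨coeff 0 b, ?_⟩
  have h1 : b.totalDegree = 0 := by
    have hb' : b.IsHomogeneous 0 := hb
    exact Nat.le_zero.1 hb'.totalDegree_le
  rw [totalDegree_eq_zero_iff_eq_C] at h1
  change a * b = _
  rw [← h1]

/-- image of a space of forms under `β` -/
theorem Br.map_le (h : Br R q β) (f : MvPolynomial (Fin 3) K →ₗ[K] Polynomial K) :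
    (S3 K 4).map (f ∘ₗ β) ≤ (S3 K 2).map f := by
  rintro _ ⟨A, hA, rfl⟩
  exact ⟨β A, h.hβ A hA, rfl⟩

theorem Br.map_le3 (h : Br R q β) {l : MvPolynomial (Fin 3) K} (hl : l.IsHomogeneous 1)
    (f : MvPolynomial (Fin 3) K →ₗ[K] Polynomial K) :
    (S3 K 3).map (f ∘ₗ β ∘ₗ LinearMap.mulLeft K l) ≤ (S3 K 2).map f := by
  rintro _ ⟨A, hA, rfl⟩
  refine ⟨β (l * A), h.hβ _ ?_, rfl⟩
  have := hl.mul hA
  exact this

/-! ### smooth conic -/

theorem br_RC (h : Br R q β) {ρ : MvPolynomial (Fin 3) K →ₐ[K] Polynomial K} (hρ : RC ρ q) :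
    ∀ A, A.IsHomogeneous 4 → ∃ c, β A = C c * q := by
  have hfin := h.finR
  have e1 := fin_map_add R (lm ρ)
  have e2 : mulS q 4 ≤ R ⊓ LinearMap.ker (lm ρ) := by
    refine le_inf h.qR ?_
    rintro _ ⟨b, _, rfl⟩
    rw [LinearMap.mem_ker]
    change ρ (q * b) = 0
    rw [map_mul, hρ.ρq, zero_mul]
  have : FiniteDimensional K (R ⊓ LinearMap.ker (lm ρ) :
      Submodule K (MvPolynomial (Fin 3) K)) := Submodule.finiteDimensional_inf_left _ _
  have e3 := Submodule.finrank_mono e2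
  rw [dim_mulS h.q0] at e3
  rw [h.hR.dim] at e1
  have e4 : (4 + 2).choose 2 = 15 := rfl
  have e5 := bracket_zero (S3 K 4) (lm ρ) (lm ρ ∘ₗ β) (R.map (lm ρ)) (by
    intro A hA A' hA'
    refine ⟨β A * A' - β A' * A, h.br A A' hA hA', ?_⟩
    change ρ (β A * A' - β A' * A) = ρ (β A) * ρ A' - ρ (β A') * ρ A
    rw [map_sub, map_mul, map_mul]) 6 6 (hρ.ker_le 2)
    (le_trans (Submodule.finrank_mono (h.map_le (lm ρ)))
      (le_trans (Submodule.finrank_map_le _ _) (by rw [dim_S3]; rfl)))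
    (by rw [dim_S3]; decide) (by
      rw [dim_S3, e4]
      omega)
  intro A hA
  obtain ⟨c, hc⟩ := mem_mulS_zero (hρ.ker (d := 0) (h.hβ A hA) (e5 A hA))
  exact ⟨c, by rw [hc, mul_comm]⟩

/-! ### the quotient by a line -/

/-- the forms `F` of degree five with `l * F ∈ R` -/
noncomputable def NN (R : Submodule K (MvPolynomial (Fin 3) K)) (l : MvPolynomial (Fin 3) K) :
    Submodule K (MvPolynomial (Fin 3) K) :=
  S3 K 5 ⊓ R.comap (LinearMap.mulLeft K l)

instance (l : MvPolynomial (Fin 3) K) : FiniteDimensional K (NN R l) :=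
  Submodule.finiteDimensional_inf_left _ _

theorem mem_NN {l F : MvPolynomial (Fin 3) K} : F ∈ NN R l ↔ F.IsHomogeneous 5 ∧ l * F ∈ R :=
  Iff.rfl

theorem finrank_NN_le {l : MvPolynomial (Fin 3) K} (hl : l ≠ 0)
    {T : Submodule K (MvPolynomial (Fin 3) K)} [FiniteDimensional K T]
    (hT : ∀ F ∈ NN R l, l * F ∈ T) : finrank K (NN R l) ≤ finrank K T := by
  have h := fin_map_add (NN R l) (LinearMap.mulLeft K l)
  have h2 : NN R l ⊓ LinearMap.ker (LinearMap.mulLeft K l) = ⊥ := by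
    rw [Submodule.eq_bot_iff]
    intro x hx
    have h3 : l * x = 0 := LinearMap.mem_ker.1 (Submodule.mem_inf.1 hx).2
    exact (mul_eq_zero.1 h3).resolve_left hl
  rw [h2, finrank_bot, add_zero] at h
  rw [← h]
  refine Submodule.finrank_mono ?_
  rintro _ ⟨F, hF, rfl⟩
  exact hT F hF

theorem Br.NN_le (h : Br R q β) {l : MvPolynomial (Fin 3) K} (hl : l.IsHomogeneous 1)
    (l0 : l ≠ 0) : finrank K (NN R l) ≤ 17 := by
  have hfin := h.finR
  have : FiniteDimensional K (R ⊓ mulS l 5 :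
      Submodule K (MvPolynomial (Fin 3) K)) := Submodule.finiteDimensional_inf_left _ _
  refine le_trans (finrank_NN_le l0 (T := R ⊓ mulS l 5) ?_) ?_
  · intro F hF
    exact Submodule.mem_inf.2 ⟨(mem_NN.1 hF).2, ⟨F, (mem_NN.1 hF).1, rfl⟩⟩
  · have h1 := Submodule.finrank_sup_add_finrank_inf_eq R (mulS l 5)
    rw [h.hR.dim, dim_mulS l0] at h1
    have h2 := h.hR.line l hl l0
    have h3 : (5 + 2).choose 2 = 21 := rfl
    omega

theorem Br.le_NN (h : Br R q β) {l m : MvPolynomial (Fin 3) K} (hm : m.IsHomogeneous 1)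
    (hq : q = l * m) : mulS m 4 ≤ NN R l := by
  rintro _ ⟨b, hb, rfl⟩
  refine mem_NN.2 ⟨hm.mul hb, h.qR ⟨b, hb, ?_⟩⟩
  change q * b = l * (m * b)
  rw [hq, mul_assoc]

theorem Br.NN_map (h : Br R q β) {l m : MvPolynomial (Fin 3) K} (hl : l.IsHomogeneous 1)
    (l0 : l ≠ 0) {ρ : MvPolynomial (Fin 3) K →ₐ[K] Polynomial K} (hρ : RL ρ m) (hq : q = l * m) :
    finrank K ((NN R l).map (lm ρ)) ≤ 2 := by
  have e1 := fin_map_add (NN R l) (lm ρ)
  have e2 := h.NN_le hl l0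
  have e3 : mulS m 4 ≤ NN R l ⊓ LinearMap.ker (lm ρ) := by
    refine le_inf (h.le_NN hρ.hl hq) ?_
    rintro _ ⟨b, _, rfl⟩
    rw [LinearMap.mem_ker]
    change ρ (m * b) = 0
    rw [map_mul, hρ.ρl, zero_mul]
  have : FiniteDimensional K (NN R l ⊓ LinearMap.ker (lm ρ) :
      Submodule K (MvPolynomial (Fin 3) K)) := Submodule.finiteDimensional_inf_left _ _
  have e4 := Submodule.finrank_mono e3
  rw [dim_mulS hρ.l0] at e4
  have e5 : (4 + 2).choose 2 = 15 := rfl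
  omega

theorem hom4 {l A : MvPolynomial (Fin 3) K} (hl : l.IsHomogeneous 1) (hA : A.IsHomogeneous 3) :
    (l * A).IsHomogeneous 4 := hl.mul hA

/-- the first step -/
theorem Br.step1 (h : Br R q β) {l m : MvPolynomial (Fin 3) K} (hl : l.IsHomogeneous 1)
    (l0 : l ≠ 0) {ρ : MvPolynomial (Fin 3) K →ₐ[K] Polynomial K} (hρ : RL ρ m) (hq : q = l * m) :
    ∀ B, B.IsHomogeneous 3 → ρ (β (l * B)) = 0 := by
  have e1 := h.NN_map hl l0 hρ hq
  intro B hB
  refine bracket_zero (S3 K 3) (lm ρ) (lm ρ ∘ₗ β ∘ₗ LinearMap.mulLeft K l)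
    ((NN R l).map (lm ρ)) ?_ 6 3 (hρ.ker_le 3)
    (le_trans (Submodule.finrank_mono (h.map_le3 hl (lm ρ))) (hρ.map_le 1))
    (by rw [dim_S3]; decide) ?_ B hB
  · intro A hA A' hA'
    refine ⟨β (l * A) * A' - β (l * A') * A, mem_NN.2 ⟨?_, ?_⟩, ?_⟩
    · exact ((h.hβ _ (hom4 hl hA)).mul hA').sub ((h.hβ _ (hom4 hl hA')).mul hA)
    · have := h.br _ _ (hom4 hl hA) (hom4 hl hA')
      have e : l * (β (l * A) * A' - β (l * A') * A) =
          β (l * A) * (l * A') - β (l * A') * (l * A) := by ring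
      rw [e]
      exact this
    · change ρ (β (l * A) * A' - β (l * A') * A) =
        ρ (β (l * A)) * ρ A' - ρ (β (l * A')) * ρ A
      rw [map_sub, map_mul ρ, map_mul ρ]
  · rw [dim_S3]
    have : (3 + 2).choose 2 = 10 := rfl
    omega

/-! ### two lines -/

/-- multiplication by a nonzero polynomial -/
theorem mul_fin {ρ : MvPolynomial (Fin 3) K →ₐ[K] Polynomial K} {l : MvPolynomial (Fin 3) K}
    (hρ : RL ρ l) {g : Polynomial K} (hg : g ≠ 0) (d : ℕ) (W : Submodule K (Polynomial K))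
    [FiniteDimensional K W] (h : ∀ B, B.IsHomogeneous d → g * ρ B ∈ W) :
    d + 1 ≤ finrank K W := by
  have e1 := fin_map_add ((S3 K d).map (lm ρ)) (LinearMap.mulLeft K g)
  have e2 : (S3 K d).map (lm ρ) ⊓ LinearMap.ker (LinearMap.mulLeft K g) = ⊥ := by
    rw [Submodule.eq_bot_iff]
    intro x hx
    have h3 : g * x = 0 := LinearMap.mem_ker.1 (Submodule.mem_inf.1 hx).2
    exact (mul_eq_zero.1 h3).resolve_left hg
  rw [e2, finrank_bot, add_zero] at e1
  have e3 := hρ.le_map d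
  refine le_trans e3 ?_
  rw [← e1]
  refine Submodule.finrank_mono ?_
  rintro _ ⟨_, ⟨B, hB, rfl⟩, rfl⟩
  exact h B hB

/-- a form of degree two which vanishes on two different lines -/
theorem two_lines {l m : MvPolynomial (Fin 3) K}
    {ρ σ : MvPolynomial (Fin 3) K →ₐ[K] Polynomial K} (hρ : RL ρ l) (hσ : RL σ m)
    (hlm : σ l ≠ 0) {F : MvPolynomial (Fin 3) K} (hF : F.IsHomogeneous 2) (h1 : ρ F = 0)
    (h2 : σ F = 0) : ∃ c, F = C c * (l * m) := by
  obtain ⟨b, hb, rfl⟩ := hρ.ker (d := 1) hF h1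
  have h3 : σ b = 0 := by
    have : σ (l * b) = 0 := h2
    rw [map_mul] at this
    exact (mul_eq_zero.1 this).resolve_left hlm
  obtain ⟨c, hc⟩ := mem_mulS_zero (hσ.ker (d := 0) hb h3)
  exact ⟨c, by
    change l * b = _
    rw [hc]
    ring⟩

/-- the forms divisible by one of the lines -/
theorem Br.two_a (h : Br R q β) {l m : MvPolynomial (Fin 3) K}
    {ρ σ : MvPolynomial (Fin 3) K →ₐ[K] Polynomial K} (hρ : RL ρ l) (hσ : RL σ m)
    (hlm : σ l ≠ 0) (hq : q = l * m) :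
    ∀ B, B.IsHomogeneous 3 → ∃ c, β (l * B) = C c * q := by
  have hfin := h.finR
  have hq' : q = m * l := by rw [hq, mul_comm]
  -- the values on the line `m`
  have s1 := h.step1 hρ.hl hρ.l0 hσ hq
  have s2 := h.step1 hσ.hl hσ.l0 hρ hq'
  intro B₀ hB₀
  by_contra hne
  have hψ : ρ (β (l * B₀)) ≠ 0 := by
    intro h0
    obtain ⟨c, hc⟩ := two_lines hρ hσ hlm (h.hβ _ (hom4 hρ.hl hB₀)) h0 (s1 B₀ hB₀)
    exact hne ⟨c, by rw [hc, hq]⟩
  -- the image of `R` on the line `l`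
  have e1 : 5 ≤ finrank K (R.map (lm ρ)) := by
    refine mul_fin hρ hψ 4 (R.map (lm ρ)) ?_
    intro A' hA'
    refine ⟨_, h.br _ _ (hom4 hρ.hl hB₀) hA', ?_⟩
    change ρ (β (l * B₀) * A' - β A' * (l * B₀)) = _
    rw [map_sub, map_mul ρ, map_mul ρ, map_mul ρ l, hρ.ρl, zero_mul, mul_zero, sub_zero]
  have e2 := fin_map_add R (lm ρ)
  rw [h.hR.dim] at e2
  have : FiniteDimensional K (R ⊓ LinearMap.ker (lm ρ) :
      Submodule K (MvPolynomial (Fin 3) K)) := Submodule.finiteDimensional_inf_left _ _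
  have e3 : finrank K (NN R l) ≤ 15 := by
    refine le_trans (finrank_NN_le hρ.l0 (T := R ⊓ LinearMap.ker (lm ρ)) ?_) (by omega)
    intro F hF
    refine Submodule.mem_inf.2 ⟨(mem_NN.1 hF).2, ?_⟩
    rw [LinearMap.mem_ker]
    change ρ (l * F) = 0
    rw [map_mul, hρ.ρl, zero_mul]
  have e4 : mulS m 4 = NN R l := by
    refine Submodule.eq_of_le_of_finrank_le (h.le_NN hσ.hl hq) ?_
    rw [dim_mulS hσ.l0]
    exact e3
  -- a cubic with `β (l * B)` in `⟨q⟩` which is not zero on the line `m`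
  obtain ⟨B₁, hB₁, hB₁ρ, hB₁σ⟩ : ∃ B₁, B₁.IsHomogeneous 3 ∧ ρ (β (l * B₁)) = 0 ∧ σ B₁ ≠ 0 := by
    by_contra hall
    push Not at hall
    have f1 := fin_map_add (S3 K 3) (lm ρ ∘ₗ β ∘ₗ LinearMap.mulLeft K l)
    have f2 := le_trans (Submodule.finrank_mono (h.map_le3 hρ.hl (lm ρ))) (hρ.map_le 1)
    have f3 : S3 K 3 ⊓ LinearMap.ker (lm ρ ∘ₗ β ∘ₗ LinearMap.mulLeft K l) ≤
        S3 K 3 ⊓ LinearMap.ker (lm σ) := by
      intro B hB
      refine Submodule.mem_inf.2 ⟨(Submodule.mem_inf.1 hB).1, ?_⟩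
      rw [LinearMap.mem_ker]
      exact hall B (Submodule.mem_inf.1 hB).1 (LinearMap.mem_ker.1 (Submodule.mem_inf.1 hB).2)
    have : FiniteDimensional K (S3 K 3 ⊓ LinearMap.ker (lm σ) :
      Submodule K (MvPolynomial (Fin 3) K)) := Submodule.finiteDimensional_inf_left _ _
    have f4 := Submodule.finrank_mono f3
    have f5 := hσ.ker_le 3
    rw [dim_S3] at f1
    have f6 : (3 + 2).choose 2 = 10 := rfl
    have f7 : (3 + 1).choose 2 = 6 := rfl
    omega
  obtain ⟨c₁, hc₁⟩ := two_lines hρ hσ hlm (h.hβ _ (hom4 hρ.hl hB₁)) hB₁ρ (s1 B₁ hB₁)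
  -- `β (m * B')` is in `⟨q⟩`
  have e5 : ∀ B', B'.IsHomogeneous 3 → ∃ c, β (m * B') = C c * (l * m) := by
    intro B' hB'
    refine two_lines hρ hσ hlm (h.hβ _ (hom4 hσ.hl hB')) (s2 B' hB') ?_
    have g1 := h.br _ _ (hom4 hρ.hl hB₁) (hom4 hσ.hl hB')
    have g2 : β (l * B₁) * (m * B') ∈ R := by
      refine h.qR ⟨C c₁ * (m * B'), ?_, ?_⟩
      · exact (S3 K 4).smul_mem c₁ (hom4 hσ.hl hB') |> fun z => by
          rwa [smul_eq_C_mul] at z
      · change q * (C c₁ * (m * B')) = _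
        rw [hc₁, hq]
        ring
    have g3 : β (m * B') * (l * B₁) ∈ R := by
      have := R.sub_mem g2 g1
      rwa [sub_sub_cancel] at this
    have g4 : β (m * B') * B₁ ∈ NN R l := by
      refine mem_NN.2 ⟨(h.hβ _ (hom4 hσ.hl hB')).mul hB₁, ?_⟩
      have e : l * (β (m * B') * B₁) = β (m * B') * (l * B₁) := by ring
      rw [e]
      exact g3
    rw [← e4] at g4
    obtain ⟨b, _, hb⟩ := g4
    have g5 : σ (β (m * B')) * σ B₁ = 0 := by
      rw [← map_mul, ← hb]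
      change σ (m * b) = 0
      rw [map_mul, hσ.ρl, zero_mul]
    exact (mul_eq_zero.1 g5).resolve_right hB₁σ
  -- contradiction on the line `l`
  have e6 := h.NN_map hσ.hl hσ.l0 hρ hq'
  have e7 : 3 + 1 ≤ finrank K ((NN R m).map (lm ρ)) := by
    refine mul_fin hρ hψ 3 _ ?_
    intro B' hB'
    obtain ⟨c, hc⟩ := e5 B' hB'
    refine ⟨β (l * B₀) * B', mem_NN.2 ⟨(h.hβ _ (hom4 hρ.hl hB₀)).mul hB', ?_⟩, ?_⟩
    · have g1 := h.br _ _ (hom4 hρ.hl hB₀) (hom4 hσ.hl hB')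
      have g2 : β (m * B') * (l * B₀) ∈ R := by
        refine h.qR ⟨C c * (l * B₀), ?_, ?_⟩
        · exact (S3 K 4).smul_mem c (hom4 hρ.hl hB₀) |> fun z => by
            rwa [smul_eq_C_mul] at z
        · change q * (C c * (l * B₀)) = _
          rw [hc, hq]
          ring
      have g3 := R.add_mem g1 g2
      rw [sub_add_cancel] at g3
      have e : m * (β (l * B₀) * B') = β (l * B₀) * (m * B') := by ring
      rw [e]
      exact g3
    · change ρ (β (l * B₀) * B') = _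
      rw [map_mul]
  omega

/-- vanishing on one of the lines -/
theorem Br.two_b (h : Br R q β) {l m : MvPolynomial (Fin 3) K}
    {ρ : MvPolynomial (Fin 3) K →ₐ[K] Polynomial K} (hρ : RL ρ l) (hm : m.IsHomogeneous 1)
    (m0 : m ≠ 0) (hq : q = l * m) (hB : ∀ B, B.IsHomogeneous 3 → ∃ c, β (m * B) = C c * q) :
    ∀ A, A.IsHomogeneous 4 → ρ (β A) = 0 := by
  have hq' : q = m * l := by rw [hq, mul_comm]
  intro A hA
  by_contra hne
  have e6 := h.NN_map hm m0 hρ hq'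
  have e7 : 3 + 1 ≤ finrank K ((NN R m).map (lm ρ)) := by
    refine mul_fin hρ hne 3 _ ?_
    intro B hB'
    obtain ⟨c, hc⟩ := hB B hB'
    refine ⟨β A * B, mem_NN.2 ⟨(h.hβ _ hA).mul hB', ?_⟩, ?_⟩
    · have g1 := h.br _ _ hA (hom4 hm hB')
      have g2 : β (m * B) * A ∈ R := by
        refine h.qR ⟨C c * A, ?_, ?_⟩
        · exact (S3 K 4).smul_mem c hA |> fun z => by
            rwa [smul_eq_C_mul] at z
        · change q * (C c * A) = _
          rw [hc]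
          ring
      have g3 := R.add_mem g1 g2
      rw [sub_add_cancel] at g3
      have e : m * (β A * B) = β A * (m * B) := by ring
      rw [e]
      exact g3
    · change ρ (β A * B) = _
      rw [map_mul]
  omega

theorem br_two (h : Br R q β) {l m : MvPolynomial (Fin 3) K}
    {ρ σ : MvPolynomial (Fin 3) K →ₐ[K] Polynomial K} (hρ : RL ρ l) (hσ : RL σ m)
    (hlm : σ l ≠ 0) (hml : ρ m ≠ 0) (hq : q = l * m) :
    ∀ A, A.IsHomogeneous 4 → ∃ c, β A = C c * q := by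
  have hq' : q = m * l := by rw [hq, mul_comm]
  have a1 := h.two_a hρ hσ hlm hq
  have a2 := h.two_a hσ hρ hml hq'
  intro A hA
  obtain ⟨c, hc⟩ := two_lines hρ hσ hlm (h.hβ _ hA) (h.two_b hρ hσ.hl hσ.l0 hq a2 A hA)
    (h.two_b hσ hρ.hl hρ.l0 hq' a1 A hA)
  exact ⟨c, by rw [hc, hq]⟩

/-! ### the double line -/

theorem br_dbl (h : Br R q β) {l m : MvPolynomial (Fin 3) K}
    {ρ : MvPolynomial (Fin 3) K →ₐ[K] Polynomial K} (hρ : RL ρ l) (hm : m.IsHomogeneous 1)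
    (m0 : m ≠ 0) (hml : ρ m = 0) (hq : q = l * m) :
    ∀ A, A.IsHomogeneous 4 → ∃ c, β A = C c * q := by
  have hρm : RL ρ m := ⟨hm, m0, hml, hρ.one, hρ.X⟩
  have e0 := h.NN_map hρ.hl hρ.l0 hρm hq
  set W := (NN R l).map (lm ρ) with hW
  have s1 := h.step1 hρ.hl hρ.l0 hρm hq
  -- division by `l`
  obtain ⟨g, hg⟩ := LinearMap.exists_leftInverse_of_injective (LinearMap.mulLeft K l) (by
    rw [LinearMap.ker_eq_bot']
    intro x hx
    exact (mul_eq_zero.1 hx).resolve_left hρ.l0)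
  have hg' : ∀ x, g (l * x) = x := fun x => LinearMap.congr_fun hg x
  -- `β (l * B) = l * c B`
  have c1 : ∀ B, B.IsHomogeneous 3 → (g (β (l * B))).IsHomogeneous 1 ∧
      β (l * B) = l * g (β (l * B)) := by
    intro B hB
    obtain ⟨b, hb, hb'⟩ := hρ.ker (d := 1) (h.hβ _ (hom4 hρ.hl hB)) (s1 B hB)
    have hb2 : l * b = β (l * B) := hb'
    rw [← hb2, hg']
    exact ⟨hb, rfl⟩
  -- the mixed bracket
  have b1 : ∀ B A, B.IsHomogeneous 3 → A.IsHomogeneous 4 →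
      ρ (g (β (l * B))) * ρ A - ρ (β A) * ρ B ∈ W := by
    intro B A hB hA
    obtain ⟨hc1, hc2⟩ := c1 B hB
    refine ⟨g (β (l * B)) * A - β A * B, mem_NN.2 ⟨?_, ?_⟩, ?_⟩
    · exact (hc1.mul hA).sub ((h.hβ _ hA).mul hB)
    · have g1 := h.br _ _ (hom4 hρ.hl hB) hA
      have e : l * (g (β (l * B)) * A - β A * B) =
          (l * g (β (l * B))) * A - β A * (l * B) := by ring
      rw [e, ← hc2]
      exact g1
    · change ρ (g (β (l * B)) * A - β A * B) = _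
      rw [map_sub, map_mul ρ, map_mul ρ]
  -- the two maps
  set ψ := lm ρ ∘ₗ g ∘ₗ β ∘ₗ LinearMap.mulLeft K l with hψ
  set φ := lm ρ ∘ₗ β with hφ
  have i1 : finrank K ((S3 K 4).map φ) ≤ 3 :=
    le_trans (Submodule.finrank_mono (h.map_le (lm ρ))) (hρ.map_le 1)
  have j1 : finrank K ((S3 K 3).map ψ) ≤ 2 := by
    refine le_trans (Submodule.finrank_mono ?_) (hρ.map_le 0)
    rintro _ ⟨B, hB, rfl⟩
    exact ⟨g (β (l * B)), (c1 B hB).1, rfl⟩
  have k1 := fin_map_add (S3 K 4) φ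
  have k2 := fin_map_add (S3 K 3) ψ
  have : FiniteDimensional K (S3 K 4 ⊓ LinearMap.ker φ :
      Submodule K (MvPolynomial (Fin 3) K)) := Submodule.finiteDimensional_inf_left _ _
  have : FiniteDimensional K (S3 K 3 ⊓ LinearMap.ker ψ :
      Submodule K (MvPolynomial (Fin 3) K)) := Submodule.finiteDimensional_inf_left _ _
  have k3 := fin_map_add (S3 K 4 ⊓ LinearMap.ker φ) (lm ρ)
  have k4 := fin_map_add (S3 K 3 ⊓ LinearMap.ker ψ) (lm ρ)
  have k5 : finrank K (S3 K 4 ⊓ LinearMap.ker φ ⊓ LinearMap.ker (lm ρ) :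
      Submodule K (MvPolynomial (Fin 3) K)) ≤ 10 :=
    le_trans (Submodule.finrank_mono (inf_le_inf_right _ inf_le_left)) (hρ.ker_le 4)
  have k6 : finrank K (S3 K 3 ⊓ LinearMap.ker ψ ⊓ LinearMap.ker (lm ρ) :
      Submodule K (MvPolynomial (Fin 3) K)) ≤ 6 :=
    le_trans (Submodule.finrank_mono (inf_le_inf_right _ inf_le_left)) (hρ.ker_le 3)
  rw [dim_S3] at k1 k2
  have n1 : (4 + 2).choose 2 = 15 := rfl
  have n2 : (3 + 2).choose 2 = 10 := rfl
  rw [n1] at k1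
  rw [n2] at k2
  -- (a)
  have pa : (S3 K 4).map φ ≠ ⊥ → finrank K ((S3 K 4).map φ) + 1 ≤ finrank K ((S3 K 3).map ψ) := by
    intro hI
    have := prod_le ((S3 K 4).map φ) ((S3 K 3 ⊓ LinearMap.ker ψ).map (lm ρ)) W hI (by
      intro hb
      rw [hb, finrank_bot] at k4
      omega) (by
      rintro _ ⟨A, hA, rfl⟩ _ ⟨B, hB, rfl⟩
      have h1 := b1 B A (Submodule.mem_inf.1 hB).1 hA
      have h2 : ρ (g (β (l * B))) = 0 := LinearMap.mem_ker.1 (Submodule.mem_inf.1 hB).2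
      rw [h2, zero_mul, zero_sub] at h1
      exact (Submodule.neg_mem_iff W).1 h1)
    omega
  -- (b)
  have pb : (S3 K 3).map ψ ≠ ⊥ → finrank K ((S3 K 3).map ψ) + 2 ≤ finrank K ((S3 K 4).map φ) := by
    intro hJ
    have := prod_le ((S3 K 3).map ψ) ((S3 K 4 ⊓ LinearMap.ker φ).map (lm ρ)) W hJ (by
      intro hb
      rw [hb, finrank_bot] at k3
      omega) (by
      rintro _ ⟨B, hB, rfl⟩ _ ⟨A, hA, rfl⟩
      have h1 := b1 B A hB (Submodule.mem_inf.1 hA).1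
      have h2 : ρ (β A) = 0 := LinearMap.mem_ker.1 (Submodule.mem_inf.1 hA).2
      rw [h2, zero_mul, sub_zero] at h1
      exact h1)
    omega
  have hI : (S3 K 4).map φ = ⊥ := by
    by_contra hI
    have q1 := pa hI
    have q2 : (S3 K 3).map ψ ≠ ⊥ := by
      intro hb
      rw [hb, finrank_bot] at q1
      omega
    have q3 := pb q2
    omega
  have hφ0 : ∀ A, A.IsHomogeneous 4 → ρ (β A) = 0 := by
    intro A hA
    have : φ A ∈ (S3 K 4).map φ := Submodule.mem_map_of_mem hA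
    rw [hI, Submodule.mem_bot] at this
    exact this
  -- `β A = l * d A`
  have d1 : ∀ A, A.IsHomogeneous 4 → (g (β A)).IsHomogeneous 1 ∧ β A = l * g (β A) := by
    intro A hA
    obtain ⟨b, hb, hb'⟩ := hρ.ker (d := 1) (h.hβ _ hA) (hφ0 A hA)
    have hb2 : l * b = β A := hb'
    rw [← hb2, hg']
    exact ⟨hb, rfl⟩
  have d2 := bracket_zero (S3 K 4) (lm ρ) (lm ρ ∘ₗ g ∘ₗ β) W (by
    intro A hA A' hA'
    refine ⟨g (β A) * A' - g (β A') * A, mem_NN.2 ⟨?_, ?_⟩, ?_⟩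
    · exact ((d1 A hA).1.mul hA').sub ((d1 A' hA').1.mul hA)
    · have g1 := h.br A A' hA hA'
      have e : l * (g (β A) * A' - g (β A') * A) =
          (l * g (β A)) * A' - (l * g (β A')) * A := by ring
      rw [e, ← (d1 A hA).2, ← (d1 A' hA').2]
      exact g1
    · change ρ (g (β A) * A' - g (β A') * A) = ρ (g (β A)) * ρ A' - ρ (g (β A')) * ρ A
      rw [map_sub, map_mul ρ, map_mul ρ]) 10 2 (hρ.ker_le 4) (by
      refine le_trans (Submodule.finrank_mono ?_) (hρ.map_le 0)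
      rintro _ ⟨A, hA, rfl⟩
      exact ⟨g (β A), (d1 A hA).1, rfl⟩) (by rw [dim_S3, n1]; decide) (by
      rw [dim_S3, n1]
      omega)
  intro A hA
  obtain ⟨c, hc⟩ := mem_mulS_zero (hρm.ker (d := 0) (d1 A hA).1 (d2 A hA))
  refine ⟨c, ?_⟩
  rw [(d1 A hA).2, hc, hq]
  ring

end Pool.Agent.T2.H42
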