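import Pool.Agent.Lib.MP_c7af3c_ag.T2.H42.Restr

/-!
# MP_c7af3c_ag, project T2, row QINTB (helper42): conics over an algebraically closed field

A nonzero quadratic form in three variables is a product of two linear forms, or a smooth conic
with a parametrisation (`RC`).
-/

set_option autoImplicit false

namespace Pool.Agent.T2.H42

open Module MvPolynomial

variable {K : Type} [Field K] [CharZero K]

theorem quad_exp {q : MvPolynomial (Fin 3) K} (hq : q.IsHomogeneous 2) :
    ∃ M : Matrix (Fin 3) (Fin 3) K, M.transpose = M ∧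
      ∀ x : Fin 3 → K, eval x q = ∑ i, ∑ j, M i j * x i * x j := by
  classical
  set N : Matrix (Fin 3) (Fin 3) K := fun i j =>
    (1 / 2) * coeff (Finsupp.single j 1) (pderiv i q) with hN
  have h1 : ∀ i, pderiv i q = ∑ j, C (coeff (Finsupp.single j 1) (pderiv i q)) * X j := by
    intro i
    exact lin_exp (hq.pderiv (i := i))
  have h2 : ∀ x : Fin 3 → K, eval x q = ∑ i, ∑ j, N i j * x i * x j := by
    intro x
    have e := hq.sum_X_mul_pderiv
    have e2 := congrArg (eval x) e
    rw [map_sum, map_nsmul] at e2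
    have e3 : ∀ i, eval x (X i * pderiv i q) = 2 * ∑ j, N i j * x i * x j := by
      intro i
      rw [map_mul, eval_X, h1 i, map_sum, Finset.mul_sum, Finset.mul_sum]
      refine Finset.sum_congr rfl fun j _ => ?_
      rw [map_mul, eval_C, eval_X, hN]
      ring
    rw [Finset.sum_congr rfl fun i _ => e3 i, ← Finset.mul_sum] at e2
    have e4 : (2 : K) * eval x q = 2 * ∑ i, ∑ j, N i j * x i * x j := by
      rw [e2, nsmul_eq_mul]
      norm_num
    exact mul_left_cancel₀ two_ne_zero e4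
  refine ⟨(1 / 2 : K) • (N + N.transpose), ?_, ?_⟩
  · ext i j
    simp only [Matrix.transpose_apply, Matrix.smul_apply, Matrix.add_apply, smul_eq_mul]
    ring
  · intro x
    rw [h2 x]
    simp only [Matrix.smul_apply, Matrix.add_apply, Matrix.transpose_apply, smul_eq_mul,
      Fin.sum_univ_three]
    ring

/-- diagonal form: `w i` are coordinates with respect to a basis `v` -/
theorem quad_diag {q : MvPolynomial (Fin 3) K} (hq : q.IsHomogeneous 2) :
    ∃ (v : Basis (Fin 3) K (Fin 3 → K)) (d : Fin 3 → K),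
      ∀ x : Fin 3 → K, eval x q = ∑ i, d i * v.repr x i ^ 2 := by
  classical
  obtain ⟨M, hM, hMq⟩ := quad_exp hq
  have hB0 : (Matrix.toBilin' M).IsSymm := Matrix.isSymm_toBilin'_iff_isSymm.2 hM
  have hB : LinearMap.IsSymm (Matrix.toBilin' M) := ⟨fun x y => by
    rw [RingHom.id_apply]
    exact hB0.eq x y⟩
  have : Invertible (2 : K) := invertibleOfNonzero two_ne_zero
  obtain ⟨v, hv⟩ := LinearMap.BilinForm.exists_orthogonal_basis hB
  let e : Fin (finrank K (Fin 3 → K)) ≃ Fin 3 := finCongr (by simp)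
  refine ⟨v.reindex e, fun i => Matrix.toBilin' M (v.reindex e i) (v.reindex e i), ?_⟩
  intro x
  set u := v.reindex e with hu
  have horth : ∀ i j, i ≠ j → Matrix.toBilin' M (u i) (u j) = 0 := by
    intro i j hij
    rw [hu, Basis.reindex_apply, Basis.reindex_apply]
    exact hv (fun h => hij (e.symm.injective h))
  have h1 : eval x q = Matrix.toBilin' M x x := by
    rw [hMq x, Matrix.toBilin'_apply]
    refine Finset.sum_congr rfl fun i _ => Finset.sum_congr rfl fun j _ => ?_
    ring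
  have h2 : x = ∑ i, u.repr x i • u i := (u.sum_repr x).symm
  have h3 : ∀ i, Matrix.toBilin' M (u i) x =
      u.repr x i * Matrix.toBilin' M (u i) (u i) := by
    intro i
    conv_lhs => rw [h2]
    rw [map_sum, Finset.sum_eq_single i]
    · rw [map_smul, smul_eq_mul]
    · intro j _ hj
      rw [map_smul, horth i j hj.symm, smul_zero]
    · intro h
      exact absurd (Finset.mem_univ i) h
  have h4 : Matrix.toBilin' M x x = ∑ i, u.repr x i * Matrix.toBilin' M (u i) x := by
    calc Matrix.toBilin' M x x = Matrix.toBilin' M (∑ i, u.repr x i • u i) x := by rw [← h2]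
      _ = ∑ i, u.repr x i * Matrix.toBilin' M (u i) x := by
          rw [map_sum, LinearMap.sum_apply]
          refine Finset.sum_congr rfl fun i _ => ?_
          rw [map_smul, LinearMap.smul_apply, smul_eq_mul]
  rw [h1, h4]
  refine Finset.sum_congr rfl fun i _ => ?_
  rw [h3 i]
  ring

/-- the coordinate forms of a basis -/
noncomputable def cf (v : Basis (Fin 3) K (Fin 3 → K)) (i : Fin 3) : MvPolynomial (Fin 3) K :=
  ∑ j, C (v.repr (Pi.single j 1) i) * X j

omit [CharZero K] in
theorem cf_hom (v : Basis (Fin 3) K (Fin 3 → K)) (i : Fin 3) : (cf v i).IsHomogeneous 1 :=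
  IsHomogeneous.sum _ _ _ fun _ _ => (isHomogeneous_C _ _).mul (isHomogeneous_X _ _)

omit [CharZero K] in
theorem cf_eval (v : Basis (Fin 3) K (Fin 3 → K)) (i : Fin 3) (x : Fin 3 → K) :
    eval x (cf v i) = v.repr x i := by
  classical
  unfold cf
  rw [map_sum]
  simp only [map_mul, eval_C, eval_X]
  have h : x = ∑ j, x j • (Pi.single j 1 : Fin 3 → K) := by
    ext k
    simp [Pi.single_apply]
  conv_rhs => rw [h]
  rw [map_sum, Finsupp.finsetSum_apply]
  refine Finset.sum_congr rfl fun j _ => ?_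
  rw [map_smul, Finsupp.smul_apply, smul_eq_mul, mul_comm]

omit [CharZero K] in
/-- the algebra homomorphism with prescribed values on the coordinate forms -/
theorem cf_hom_exists (v : Basis (Fin 3) K (Fin 3 → K)) (p : Fin 3 → Polynomial K) :
    ∃ ρ : MvPolynomial (Fin 3) K →ₐ[K] Polynomial K, ∀ i, ρ (cf v i) = p i := by
  classical
  refine ⟨aeval fun j => ∑ k, Polynomial.C (v k j) * p k, fun i => ?_⟩
  unfold cf
  rw [map_sum]
  simp only [map_mul, aeval_X, ← MvPolynomial.algebraMap_eq, AlgHom.commutes,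
    Polynomial.algebraMap_eq]
  have h1 : ∀ k, ∑ j, v.repr (Pi.single j 1) i * v k j = if k = i then 1 else 0 := by
    intro k
    have := cf_eval v i (v k)
    unfold cf at this
    rw [map_sum] at this
    simp only [map_mul, eval_C, eval_X] at this
    rw [this, Basis.repr_self, Finsupp.single_apply]
  calc ∑ j, Polynomial.C (v.repr (Pi.single j 1) i) * ∑ k, Polynomial.C (v k j) * p k
      = ∑ k, Polynomial.C (∑ j, v.repr (Pi.single j 1) i * v k j) * p k := by
        simp only [Finset.mul_sum, map_sum, Finset.sum_mul, Polynomial.C_mul]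
        rw [Finset.sum_comm]
        refine Finset.sum_congr rfl fun k _ => Finset.sum_congr rfl fun j _ => ?_
        ring
    _ = p i := by
        simp only [h1]
        rw [Finset.sum_eq_single i]
        · simp
        · intro k _ hk
          simp [hk]
        · simp

theorem quad_cf {q : MvPolynomial (Fin 3) K} (hq : q.IsHomogeneous 2) :
    ∃ (v : Basis (Fin 3) K (Fin 3 → K)) (d : Fin 3 → K), q = ∑ i, C (d i) * cf v i ^ 2 := by
  obtain ⟨v, d, h⟩ := quad_diag hq
  refine ⟨v, d, MvPolynomial.funext fun x => ?_⟩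
  rw [h x, map_sum]
  refine Finset.sum_congr rfl fun i _ => ?_
  rw [map_mul, map_pow, eval_C, cf_eval]

/-- the classification -/
theorem conic_class [IsAlgClosed K] {q : MvPolynomial (Fin 3) K} (hq : q.IsHomogeneous 2)
    (q0 : q ≠ 0) : (∃ ρ, RC ρ q) ∨ ∃ l m : MvPolynomial (Fin 3) K, l.IsHomogeneous 1 ∧
      m.IsHomogeneous 1 ∧ l ≠ 0 ∧ m ≠ 0 ∧ q = l * m := by
  obtain ⟨v, d, hd⟩ := quad_cf hq
  have hs : ∀ i, ∃ s : K, s ^ 2 = d i := fun i => IsAlgClosed.exists_pow_nat_eq (d i) two_pos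
  choose s hs using hs
  obtain ⟨ι, hι⟩ : ∃ ι : K, ι ^ 2 = -1 := IsAlgClosed.exists_pow_nat_eq (-1) two_pos
  have hsC : ∀ i, C (d i) = (C (s i) : MvPolynomial (Fin 3) K) ^ 2 := fun i => by
    rw [← map_pow, hs i]
  have hιC : (C ι : MvPolynomial (Fin 3) K) ^ 2 = -1 := by
    rw [← map_pow, hι, map_neg, map_one]
  -- the sum of two squares
  have key : ∀ i j, q = C (d i) * cf v i ^ 2 + C (d j) * cf v j ^ 2 →
      ∃ l m : MvPolynomial (Fin 3) K, l.IsHomogeneous 1 ∧
      m.IsHomogeneous 1 ∧ l ≠ 0 ∧ m ≠ 0 ∧ q = l * m := by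
    intro i j hij
    have e : q = (C (s i) * cf v i + C ι * C (s j) * cf v j) *
        (C (s i) * cf v i - C ι * C (s j) * cf v j) := by
      rw [hij, hsC, hsC]
      linear_combination (C (s j) ^ 2 * cf v j ^ 2) * hιC
    have f1 : ∀ (a : K) k, (C a * cf v k).IsHomogeneous 1 := fun a k =>
      (isHomogeneous_C _ _).mul (cf_hom v k)
    have f2 : ∀ (a b : K) k, (C a * C b * cf v k).IsHomogeneous 1 := fun a b k => by
      rw [← map_mul]
      exact f1 _ _
    refine ⟨_, _, (f1 _ _).add (f2 _ _ _), (f1 _ _).sub (f2 _ _ _), ?_, ?_, e⟩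
    · intro h
      apply q0
      rw [e, h, zero_mul]
    · intro h
      apply q0
      rw [e, h, mul_zero]
  rw [Fin.sum_univ_three] at hd
  by_cases h0 : d 0 = 0
  · right
    exact key 1 2 (by rw [hd, h0, map_zero, zero_mul, zero_add])
  by_cases h1 : d 1 = 0
  · right
    exact key 0 2 (by rw [hd, h1, map_zero, zero_mul, add_zero])
  by_cases h2 : d 2 = 0
  · right
    exact key 0 1 (by rw [hd, h2, map_zero, zero_mul, add_zero])
  left
  have s0 : ∀ i, d i ≠ 0 → s i ≠ 0 := fun i hi h => hi (by rw [← hs i, h]; ring)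
  have ι0 : ι ≠ 0 := fun h => by
    rw [h] at hι
    norm_num at hι
  have t0 := s0 0 h0
  have t1 := s0 1 h1
  have t2 := s0 2 h2
  obtain ⟨ρ, hρ⟩ := cf_hom_exists v
    ![Polynomial.C (1 / (2 * s 0)) * (1 + Polynomial.X ^ 2),
      Polynomial.C (1 / (2 * ι * s 1)) * (1 - Polynomial.X ^ 2),
      Polynomial.C (1 / (ι * s 2)) * Polynomial.X]
  have r0 : ρ (cf v 0) = Polynomial.C (1 / (2 * s 0)) * (1 + Polynomial.X ^ 2) := hρ 0
  have r1 : ρ (cf v 1) = Polynomial.C (1 / (2 * ι * s 1)) * (1 - Polynomial.X ^ 2) := hρ 1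
  have r2 : ρ (cf v 2) = Polynomial.C (1 / (ι * s 2)) * Polynomial.X := hρ 2
  have hC : ∀ a : K, ρ (C a) = Polynomial.C a := fun a => by
    rw [← MvPolynomial.algebraMap_eq, AlgHom.commutes, Polynomial.algebraMap_eq]
  have f1 : ∀ (a : K) k, (C a * cf v k).IsHomogeneous 1 := fun a k =>
    (isHomogeneous_C _ _).mul (cf_hom v k)
  -- the three forms
  have u0 : ρ (C (s 0) * cf v 0) = Polynomial.C (1 / 2) * (1 + Polynomial.X ^ 2) := by
    rw [map_mul, hC, r0, ← mul_assoc, ← Polynomial.C_mul]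
    congr 2
    field_simp
  have u1 : ρ (C (ι * s 1) * cf v 1) = Polynomial.C (1 / 2) * (1 - Polynomial.X ^ 2) := by
    rw [map_mul, hC, r1, ← mul_assoc, ← Polynomial.C_mul]
    congr 2
    field_simp
  have u2 : ρ (C (ι * s 2) * cf v 2) = Polynomial.X := by
    rw [map_mul, hC, r2, ← mul_assoc, ← Polynomial.C_mul]
    have : ι * s 2 * (1 / (ι * s 2)) = 1 := by field_simp
    rw [this, Polynomial.C_1, one_mul]
  have hhalf : (Polynomial.C (1 / 2 : K)) + Polynomial.C (1 / 2 : K) = 1 := by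
    rw [← Polynomial.C_add]
    norm_num
  refine ⟨ρ, hq, q0, ?_, ⟨C (s 0) * cf v 0 + C (ι * s 1) * cf v 1, (f1 _ _).add (f1 _ _), ?_⟩,
    ⟨C (ι * s 2) * cf v 2, f1 _ _, u2⟩,
    ⟨C (s 0) * cf v 0 - C (ι * s 1) * cf v 1, (f1 _ _).sub (f1 _ _), ?_⟩⟩
  · have e : q = (C (s 0) * cf v 0) ^ 2 - (C (ι * s 1) * cf v 1) ^ 2 -
        (C (ι * s 2) * cf v 2) ^ 2 := by
      rw [hd, hsC, hsC, hsC, map_mul, map_mul]
      linear_combination (C (s 1) ^ 2 * cf v 1 ^ 2 + C (s 2) ^ 2 * cf v 2 ^ 2) * hιC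
    rw [e, map_sub, map_sub, map_pow, map_pow, map_pow, u0, u1, u2]
    have h4 : (Polynomial.C (1 / 2 : K)) ^ 2 * 4 = 1 := by
      rw [← Polynomial.C_pow]
      have : (4 : Polynomial K) = Polynomial.C 4 := (map_ofNat Polynomial.C 4).symm
      rw [this, ← Polynomial.C_mul]
      norm_num
    linear_combination (Polynomial.X ^ 2) * h4
  · rw [map_add, u0, u1]
    linear_combination hhalf
  · rw [map_sub, u0, u1]
    linear_combination (Polynomial.X ^ 2) * hhalf

end Pool.Agent.T2.H42
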