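import Pool.Agent.Lib.MP_c7af3c_ag.T2.IfaceB
import Pool.Agent.Lib.MP_c7af3c_ag.T2.H42.Core
import Pool.Agent.Lib.MP_c7af3c_ag.T2.H42.Qclass

/-!
# MP_c7af3c_ag, project T2, row QINTB (helper42)
-/

set_option autoImplicit false

namespace Pool.Agent.T2.H42

open Module MvPolynomial

theorem qintb' {K : Type} [Field K] [CharZero K] [IsAlgClosed K]
    {R : Submodule K (MvPolynomial (Fin 3) K)} {q : MvPolynomial (Fin 3) K}
    {β : MvPolynomial (Fin 3) K →ₗ[K] MvPolynomial (Fin 3) K} (h : Br R q β) :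
    ∀ A, A.IsHomogeneous 4 → ∃ c, β A = C c * q := by
  rcases conic_class h.hq h.q0 with ⟨ρ, hρ⟩ | ⟨l, m, hl, hm, l0, m0, hq⟩
  · exact br_RC h hρ
  · obtain ⟨ρ, hρ⟩ := exists_RL hl l0
    by_cases hml : ρ m = 0
    · exact br_dbl h hρ hm m0 hml hq
    · obtain ⟨σ, hσ⟩ := exists_RL hm m0
      refine br_two h hρ hσ (fun hlm => hml ?_) hml hq
      -- if `l` vanishes on the line `m` then `m` vanishes on the line `l`
      obtain ⟨c, hc⟩ := mem_mulS_zero (hσ.ker (d := 0) hl hlm)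
      have h1 : ρ (m * C c) = 0 := by rw [← hc, hρ.ρl]
      rw [map_mul, ← MvPolynomial.algebraMap_eq, AlgHom.commutes, Polynomial.algebraMap_eq] at h1
      refine (mul_eq_zero.1 h1).resolve_right ?_
      rw [Polynomial.C_eq_zero]
      rintro rfl
      rw [map_zero, mul_zero] at hc
      exact l0 hc

theorem qintb : QintbStatement := by
  intro _ K _ _ _ R hR q hq q0 hqR β hβ hbr
  exact qintb' (⟨hR, hq, q0, hqR, hβ, hbr⟩ : Br R q β)

end Pool.Agent.T2.H42
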