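import Mathlib

/-!
# MP_c7af3c_ag, project T2, row QINTB (helper42): products of spaces of polynomials

* `prod_le`: `dim A + dim B ≤ dim W + 1` if `A B ⊆ W` for nonzero spaces of polynomials in one
  variable.
* `fin_map_add`: rank and nullity for a subspace.
* `bracket_zero`: a map `φ` with `φ A * ρ A' - φ A' * ρ A ∈ W` is zero if the space is large.
-/

set_option autoImplicit false

namespace Pool.Agent.T2.H42

open Polynomial Module
open scoped Pointwise

section prod

variable {K : Type} [Field K]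

/-- the degrees of the nonzero elements -/
def degs (A : Submodule K K[X]) : Set ℕ := {n | ∃ a ∈ A, a ≠ 0 ∧ a.natDegree = n}

theorem degs_card_le (A : Submodule K K[X]) [FiniteDimensional K A] (s : Finset ℕ)
    (hs : ↑s ⊆ degs A) : s.card ≤ finrank K A := by
  classical
  have h : ∀ n : s, ∃ a : A, (a : K[X]) ≠ 0 ∧ (a : K[X]).natDegree = n := by
    rintro ⟨n, hn⟩
    obtain ⟨a, ha, h0, h1⟩ := hs hn
    exact ⟨⟨a, ha⟩, h0, h1⟩
  choose f hf0 hf1 using h
  have hli : LinearIndependent K f := by
    rw [linearIndependent_iff']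
    intro t g hg i hi
    by_contra hne
    -- the largest index with nonzero coefficient
    obtain ⟨m, hm, hmax⟩ := (t.filter fun j => g j ≠ 0).exists_max_image (fun j => (j : ℕ))
      ⟨i, Finset.mem_filter.2 ⟨hi, hne⟩⟩
    rw [Finset.mem_filter] at hm
    have hg' : ∑ j ∈ t, g j • (f j : K[X]) = 0 := by
      have := congrArg (fun z : A => (z : K[X])) hg
      simpa using this
    have hc := congrArg (fun p : K[X] => p.coeff (m : ℕ)) hg'
    simp only [finsetSum_coeff, coeff_smul, coeff_zero, smul_eq_mul] at hc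
    rw [Finset.sum_eq_single_of_mem m hm.1] at hc
    · have h2 : (f m : K[X]).coeff (m : ℕ) ≠ 0 := by
        rw [← hf1 m]
        exact leadingCoeff_ne_zero.2 (hf0 m)
      exact (mul_ne_zero hm.2 h2) hc
    · intro j hj hjm
      by_cases hgj : g j = 0
      · rw [hgj, zero_mul]
      · have h3 : (j : ℕ) ≤ m := hmax j (Finset.mem_filter.2 ⟨hj, hgj⟩)
        have h4 : (j : ℕ) < m := lt_of_le_of_ne h3 fun h => hjm (Subtype.ext h)
        rw [coeff_eq_zero_of_natDegree_lt (by rw [hf1 j]; exact h4), mul_zero]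
  have := hli.fintype_card_le_finrank
  simpa using this

theorem degs_finite (A : Submodule K K[X]) [FiniteDimensional K A] : (degs A).Finite := by
  by_contra h
  obtain ⟨s, hs, hc⟩ := Set.Infinite.exists_subset_card_eq h (finrank K A + 1)
  have := degs_card_le A s hs
  omega

theorem finrank_le_card (A : Submodule K K[X]) [FiniteDimensional K A] (s : Finset ℕ)
    (hs : degs A ⊆ ↑s) : finrank K A ≤ s.card := by
  classical
  let L : A →ₗ[K] (s → K) := LinearMap.pi fun n => (lcoeff K (n : ℕ)) ∘ₗ A.subtype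
  have hL : Function.Injective L := by
    rw [← LinearMap.ker_eq_bot, LinearMap.ker_eq_bot']
    rintro ⟨a, ha⟩ h
    by_contra hne
    have h0 : a ≠ 0 := fun h => hne (Subtype.ext h)
    have hmem : a.natDegree ∈ s := by
      have := hs ⟨a, ha, h0, rfl⟩
      simpa using this
    have := congrFun h ⟨a.natDegree, hmem⟩
    simp only [L, LinearMap.pi_apply, LinearMap.comp_apply, Submodule.subtype_apply, lcoeff_apply,
      Pi.zero_apply] at this
    exact leadingCoeff_ne_zero.2 h0 this
  have := LinearMap.finrank_le_finrank_of_injective hL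
  simpa using this

/-- the product lemma -/
theorem prod_le (A B W : Submodule K K[X]) [FiniteDimensional K A] [FiniteDimensional K B]
    [FiniteDimensional K W] (hA : A ≠ ⊥) (hB : B ≠ ⊥) (h : ∀ a ∈ A, ∀ b ∈ B, a * b ∈ W) :
    finrank K A + finrank K B ≤ finrank K W + 1 := by
  classical
  set s := (degs_finite A).toFinset with hs
  set t := (degs_finite B).toFinset with ht
  have h1 : finrank K A ≤ s.card := finrank_le_card A s (by simp [hs])
  have h2 : finrank K B ≤ t.card := finrank_le_card B t (by simp [ht])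
  have hsn : s.Nonempty := by
    obtain ⟨a, ha, h0⟩ := A.ne_bot_iff.1 hA
    exact ⟨a.natDegree, by rw [hs, Set.Finite.mem_toFinset]; exact ⟨a, ha, h0, rfl⟩⟩
  have htn : t.Nonempty := by
    obtain ⟨a, ha, h0⟩ := B.ne_bot_iff.1 hB
    exact ⟨a.natDegree, by rw [ht, Set.Finite.mem_toFinset]; exact ⟨a, ha, h0, rfl⟩⟩
  have h3 : s.card + t.card - 1 ≤ (s + t).card :=
    cauchy_davenport_add_of_linearOrder_isCancelAdd hsn htn
  have h4 : (s + t).card ≤ finrank K W := by
    refine degs_card_le W (s + t) ?_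
    intro n hn
    rw [Finset.mem_coe, Finset.mem_add] at hn
    obtain ⟨i, hi, j, hj, rfl⟩ := hn
    rw [hs, Set.Finite.mem_toFinset] at hi
    rw [ht, Set.Finite.mem_toFinset] at hj
    obtain ⟨a, ha, ha0, rfl⟩ := hi
    obtain ⟨b, hb, hb0, rfl⟩ := hj
    exact ⟨a * b, h a ha b hb, mul_ne_zero ha0 hb0, natDegree_mul ha0 hb0⟩
  have h5 := hsn.card_pos
  omega

end prod

section bracket

variable {K : Type} [Field K] {V M : Type} [AddCommGroup V] [Module K V] [AddCommGroup M]
  [Module K M]

/-- rank and nullity for a subspace -/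
theorem fin_map_add (S : Submodule K V) [FiniteDimensional K S] (f : V →ₗ[K] M) :
    finrank K (S.map f) + finrank K (S ⊓ LinearMap.ker f : Submodule K V) = finrank K S := by
  have h := LinearMap.finrank_range_add_finrank_ker (f.domRestrict S)
  rw [LinearMap.range_domRestrict] at h
  have h2 : (LinearMap.ker (f.domRestrict S)).map S.subtype = S ⊓ LinearMap.ker f := by
    ext v
    simp only [Submodule.mem_map, LinearMap.mem_ker, LinearMap.domRestrict_apply,
      Submodule.subtype_apply, Submodule.mem_inf]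
    constructor
    · rintro ⟨⟨w, hw⟩, h1, rfl⟩
      exact ⟨hw, h1⟩
    · rintro ⟨h1, h2⟩
      exact ⟨⟨v, h1⟩, h2, rfl⟩
  rw [← h2, Submodule.finrank_map_subtype_eq]
  exact h

/-- a bracket with values in a small space -/
theorem bracket_zero (S : Submodule K V) [FiniteDimensional K S] (ρ φ : V →ₗ[K] K[X])
    (W : Submodule K K[X]) [FiniteDimensional K W]
    (h : ∀ A ∈ S, ∀ A' ∈ S, φ A * ρ A' - φ A' * ρ A ∈ W) (κ i : ℕ)
    (hκ : finrank K (S ⊓ LinearMap.ker ρ : Submodule K V) ≤ κ) (hi : finrank K (S.map φ) ≤ i)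
    (h1 : κ + i < finrank K S) (h2 : finrank K W + 2 + κ ≤ finrank K S) :
    ∀ A ∈ S, φ A = 0 := by
  by_contra hne
  push Not at hne
  obtain ⟨A₀, hA₀, h0⟩ := hne
  set N := S ⊓ LinearMap.ker φ with hN
  have e1 := fin_map_add S φ
  rw [← hN] at e1
  have : FiniteDimensional K N := Submodule.finiteDimensional_inf_left _ _
  have e2 := fin_map_add N ρ
  have e3 : finrank K (N ⊓ LinearMap.ker ρ : Submodule K V) ≤ κ :=
    le_trans (Submodule.finrank_mono (inf_le_inf_right _ inf_le_left)) hκ
  have hI : S.map φ ≠ ⊥ := by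
    rw [Submodule.ne_bot_iff]
    exact ⟨φ A₀, Submodule.mem_map_of_mem hA₀, h0⟩
  have hB : N.map ρ ≠ ⊥ := by
    intro hb
    rw [hb, finrank_bot] at e2
    omega
  have e4 := prod_le (S.map φ) (N.map ρ) W hI hB (by
    rintro _ ⟨A', hA', rfl⟩ _ ⟨A, hA, rfl⟩
    have hA0 : φ A = 0 := LinearMap.mem_ker.1 (Submodule.mem_inf.1 hA).2
    have := h A (Submodule.mem_inf.1 hA).1 A' hA'
    rw [hA0, zero_mul, zero_sub] at this
    exact (Submodule.neg_mem_iff W).1 this)
  omega

end bracket

end Pool.Agent.T2.H42
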