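import Pool.Agent.Lib.MP_c7af3c_ag.T2.Plane
import Pool.Agent.Lib.MP_c7af3c_ag.T2.H42.Prod

/-!
# MP_c7af3c_ag, project T2, row QINTB (helper42): restriction to lines and conics

`ρ` is an algebra homomorphism from the polynomials in three variables to `K[X]`.
* `RL ρ l`: the restriction to the line `l = 0`; exists for every `l ≠ 0` (`exists_RL`).
* `RC ρ q`: the restriction to a smooth conic `q = 0`.
* dimensions of kernels and images; the kernel of `RL` on the forms of degree `d + 1` is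
  `mulS l d` (`RL.ker`), the kernel of `RC` on the forms of degree `d + 2` is `mulS q d`.
-/

set_option autoImplicit false

namespace Pool.Agent.T2.H42

open Module MvPolynomial

variable {K : Type} [Field K]

/-! ### dimensions -/

instance fin_S3 (d : ℕ) : FiniteDimensional K (S3 K d) :=
  Edge.H65.finite_hom3 K d

theorem dim_S3 (d : ℕ) : finrank K (S3 K d) = (d + 2).choose 2 := Edge.H65.finrank_hom3 K d

instance fin_mulS (a : MvPolynomial (Fin 3) K) (d : ℕ) : FiniteDimensional K (mulS a d) := by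
  unfold mulS
  infer_instance

theorem dim_mulS {a : MvPolynomial (Fin 3) K} (ha : a ≠ 0) (d : ℕ) :
    finrank K (mulS a d) = (d + 2).choose 2 := by
  have h := fin_map_add (S3 K d) (LinearMap.mulLeft K a)
  have h2 : S3 K d ⊓ LinearMap.ker (LinearMap.mulLeft K a) = ⊥ := by
    rw [Submodule.eq_bot_iff]
    intro x hx
    have h3 : a * x = 0 := LinearMap.mem_ker.1 (Submodule.mem_inf.1 hx).2
    exact (mul_eq_zero.1 h3).resolve_left ha
  rw [h2, finrank_bot, add_zero, dim_S3] at h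
  exact h

theorem mulS_le {a : MvPolynomial (Fin 3) K} {e : ℕ} (ha : a.IsHomogeneous e) (d : ℕ) :
    mulS a d ≤ S3 K (e + d) := by
  rintro _ ⟨b, hb, rfl⟩
  exact ha.mul hb

/-- the linear map of an algebra homomorphism -/
noncomputable abbrev lm (ρ : MvPolynomial (Fin 3) K →ₐ[K] Polynomial K) :
    MvPolynomial (Fin 3) K →ₗ[K] Polynomial K := ρ.toLinearMap

/-! ### lines -/

/-- the restriction to a line -/
structure RL (ρ : MvPolynomial (Fin 3) K →ₐ[K] Polynomial K) (l : MvPolynomial (Fin 3) K) :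
    Prop where
  hl : l.IsHomogeneous 1
  l0 : l ≠ 0
  ρl : ρ l = 0
  one : ∃ a : MvPolynomial (Fin 3) K, a.IsHomogeneous 1 ∧ ρ a = 1
  X : ∃ a : MvPolynomial (Fin 3) K, a.IsHomogeneous 1 ∧ ρ a = Polynomial.X

theorem RL.le_map {ρ : MvPolynomial (Fin 3) K →ₐ[K] Polynomial K} {l : MvPolynomial (Fin 3) K}
    (h : RL ρ l) (d : ℕ) : d + 1 ≤ finrank K ((S3 K d).map (lm ρ)) := by
  obtain ⟨a, ha, ha1⟩ := h.one
  obtain ⟨b, hb, hb1⟩ := h.X
  have := degs_card_le ((S3 K d).map (lm ρ)) (Finset.range (d + 1)) (by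
    intro n hn
    have hn' : n < d + 1 := by simpa using hn
    refine ⟨Polynomial.X ^ n, ?_, pow_ne_zero _ Polynomial.X_ne_zero, Polynomial.natDegree_X_pow n⟩
    refine ⟨a ^ (d - n) * b ^ n, ?_, ?_⟩
    · have h1 := (ha.pow (d - n)).mul (hb.pow n)
      have h2 : 1 * (d - n) + 1 * n = d := by omega
      rw [h2] at h1
      exact h1
    · change ρ (a ^ (d - n) * b ^ n) = _
      rw [map_mul, map_pow, map_pow, ha1, hb1, one_pow, one_mul])
  simpa using this

theorem RL.ker_le {ρ : MvPolynomial (Fin 3) K →ₐ[K] Polynomial K} {l : MvPolynomial (Fin 3) K}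
    (h : RL ρ l) (d : ℕ) : finrank K (S3 K d ⊓ LinearMap.ker (lm ρ) :
      Submodule K (MvPolynomial (Fin 3) K)) ≤ (d + 1).choose 2 := by
  have h1 := fin_map_add (S3 K d) (lm ρ)
  have h2 := h.le_map d
  rw [dim_S3] at h1
  have h3 : (d + 2).choose 2 = (d + 1).choose 1 + (d + 1).choose 2 := rfl
  rw [Nat.choose_one_right] at h3
  omega

theorem RL.ker {ρ : MvPolynomial (Fin 3) K →ₐ[K] Polynomial K} {l : MvPolynomial (Fin 3) K}
    (h : RL ρ l) {d : ℕ} {F : MvPolynomial (Fin 3) K} (hF : F.IsHomogeneous (d + 1))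
    (h0 : ρ F = 0) : F ∈ mulS l d := by
  have h1 : mulS l d ≤ S3 K (d + 1) ⊓ LinearMap.ker (lm ρ) := by
    rintro _ ⟨b, hb, rfl⟩
    refine Submodule.mem_inf.2 ⟨?_, ?_⟩
    · have := h.hl.mul hb
      rw [add_comm] at this
      exact this
    · rw [LinearMap.mem_ker]
      change ρ (l * b) = 0
      rw [map_mul, h.ρl, zero_mul]
  have h2 := Submodule.eq_of_le_of_finrank_le h1 (by
    rw [dim_mulS h.l0]
    exact h.ker_le (d + 1))
  rw [h2]
  exact Submodule.mem_inf.2 ⟨hF, h0⟩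

theorem RL.map_le {ρ : MvPolynomial (Fin 3) K →ₐ[K] Polynomial K} {l : MvPolynomial (Fin 3) K}
    (h : RL ρ l) (d : ℕ) : finrank K ((S3 K (d + 1)).map (lm ρ)) ≤ d + 2 := by
  have h1 := fin_map_add (S3 K (d + 1)) (lm ρ)
  have h2 : mulS l d ≤ S3 K (d + 1) ⊓ LinearMap.ker (lm ρ) := by
    rintro _ ⟨b, hb, rfl⟩
    refine Submodule.mem_inf.2 ⟨?_, ?_⟩
    · have := h.hl.mul hb
      rw [add_comm] at this
      exact this
    · rw [LinearMap.mem_ker]
      change ρ (l * b) = 0
      rw [map_mul, h.ρl, zero_mul]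
  have h3 := Submodule.finrank_mono h2
  rw [dim_mulS h.l0] at h3
  rw [dim_S3] at h1
  have h4 : (d + 1 + 2).choose 2 = (d + 2).choose 1 + (d + 2).choose 2 := rfl
  rw [Nat.choose_one_right] at h4
  omega

theorem exists_single {m : Fin 3 →₀ ℕ} (hm : m.degree = 1) : ∃ i, m = Finsupp.single i 1 := by
  rw [Finsupp.degree_eq_sum, Fin.sum_univ_three] at hm
  rcases (by omega : (m 0 = 1 ∧ m 1 = 0 ∧ m 2 = 0) ∨ (m 0 = 0 ∧ m 1 = 1 ∧ m 2 = 0) ∨
    (m 0 = 0 ∧ m 1 = 0 ∧ m 2 = 1)) with ⟨h0, h1, h2⟩ | ⟨h0, h1, h2⟩ | ⟨h0, h1, h2⟩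
  · refine ⟨0, Finsupp.ext fun j => ?_⟩
    fin_cases j <;> simp [h0, h1, h2]
  · refine ⟨1, Finsupp.ext fun j => ?_⟩
    fin_cases j <;> simp [h0, h1, h2]
  · refine ⟨2, Finsupp.ext fun j => ?_⟩
    fin_cases j <;> simp [h0, h1, h2]

/-- the coefficients of a linear form -/
theorem lin_exp {l : MvPolynomial (Fin 3) K} (hl : l.IsHomogeneous 1) :
    l = ∑ i, C (coeff (Finsupp.single i 1) l) * MvPolynomial.X i := by
  classical
  ext m
  rw [coeff_sum]
  simp only [coeff_C_mul, coeff_X]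
  by_cases hm : m.degree = 1
  · obtain ⟨i, rfl⟩ : ∃ i, m = Finsupp.single i 1 := exists_single hm
    rw [Finset.sum_eq_single i]
    · simp
    · intro j _ hj
      rw [if_neg, mul_zero]
      intro h
      exact hj (Finsupp.single_left_injective one_ne_zero h)
    · simp
  · rw [hl.coeff_eq_zero hm, Finset.sum_eq_zero]
    intro i _
    rw [if_neg, mul_zero]
    rintro rfl
    exact hm (by simp)

/-- every line has a restriction -/
theorem exists_RL {l : MvPolynomial (Fin 3) K} (hl : l.IsHomogeneous 1) (l0 : l ≠ 0) :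
    ∃ ρ, RL ρ l := by
  classical
  have hexp := lin_exp hl
  set c : Fin 3 → K := fun i => coeff (Finsupp.single i 1) l with hc
  have hne : ∃ i, c i ≠ 0 := by
    by_contra hall
    push Not at hall
    apply l0
    rw [hexp]
    refine Finset.sum_eq_zero fun i _ => ?_
    have : coeff (Finsupp.single i 1) l = 0 := hall i
    rw [this, map_zero, zero_mul]
  obtain ⟨i, hi⟩ := hne
  obtain ⟨j, k, hij, hik, hjk, huniv⟩ : ∃ j k : Fin 3, i ≠ j ∧ i ≠ k ∧ j ≠ k ∧
      (Finset.univ : Finset (Fin 3)) = {i, j, k} := by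
    fin_cases i
    · exact ⟨1, 2, by decide, by decide, by decide, by decide⟩
    · exact ⟨0, 2, by decide, by decide, by decide, by decide⟩
    · exact ⟨0, 1, by decide, by decide, by decide, by decide⟩
  let p : Polynomial K := -(Polynomial.C (c j / c i) + Polynomial.C (c k / c i) * Polynomial.X)
  let v : Fin 3 → Polynomial K := fun m => if m = i then p else if m = j then 1 else Polynomial.X
  refine ⟨aeval v, hl, l0, ?_, ⟨MvPolynomial.X j, isHomogeneous_X _ _, ?_⟩,
    ⟨MvPolynomial.X k, isHomogeneous_X _ _, ?_⟩⟩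
  · rw [hexp, map_sum, huniv, Finset.sum_insert, Finset.sum_insert, Finset.sum_singleton]
    · simp only [map_mul, aeval_X, ← MvPolynomial.algebraMap_eq, AlgHom.commutes,
        Polynomial.algebraMap_eq]
      have e1 : v i = p := by simp [v]
      have e2 : v j = 1 := by simp [v, hij.symm]
      have e3 : v k = Polynomial.X := by simp [v, hik.symm, hjk.symm]
      change Polynomial.C (c i) * v i + (Polynomial.C (c j) * v j + Polynomial.C (c k) * v k) = 0
      rw [e1, e2, e3]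
      have e4 : c j = c i * (c j / c i) := by field_simp
      have e5 : c k = c i * (c k / c i) := by field_simp
      simp only [p]
      rw [mul_neg, mul_add, ← mul_assoc, ← Polynomial.C_mul, ← Polynomial.C_mul, ← e4, ← e5]
      ring
    · simpa using hjk
    · simp [hij, hik]
  · rw [aeval_X]
    simp [v, hij.symm]
  · rw [aeval_X]
    simp [v, hik.symm, hjk.symm]

/-! ### conics -/

/-- the restriction to a smooth conic -/
structure RC (ρ : MvPolynomial (Fin 3) K →ₐ[K] Polynomial K) (q : MvPolynomial (Fin 3) K) :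
    Prop where
  hq : q.IsHomogeneous 2
  q0 : q ≠ 0
  ρq : ρ q = 0
  one : ∃ a : MvPolynomial (Fin 3) K, a.IsHomogeneous 1 ∧ ρ a = 1
  X : ∃ a : MvPolynomial (Fin 3) K, a.IsHomogeneous 1 ∧ ρ a = Polynomial.X
  X2 : ∃ a : MvPolynomial (Fin 3) K, a.IsHomogeneous 1 ∧ ρ a = Polynomial.X ^ 2

theorem RC.le_map {ρ : MvPolynomial (Fin 3) K →ₐ[K] Polynomial K} {q : MvPolynomial (Fin 3) K}
    (h : RC ρ q) (d : ℕ) : 2 * d + 1 ≤ finrank K ((S3 K d).map (lm ρ)) := by
  obtain ⟨a, ha, ha1⟩ := h.one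
  obtain ⟨b, hb, hb1⟩ := h.X
  obtain ⟨c, hc, hc1⟩ := h.X2
  have := degs_card_le ((S3 K d).map (lm ρ)) (Finset.range (2 * d + 1)) (by
    intro n hn
    have hn' : n < 2 * d + 1 := by simpa using hn
    refine ⟨Polynomial.X ^ n, ?_, pow_ne_zero _ Polynomial.X_ne_zero, Polynomial.natDegree_X_pow n⟩
    by_cases hnd : n ≤ d
    · refine ⟨a ^ (d - n) * b ^ n, ?_, ?_⟩
      · have h1 := (ha.pow (d - n)).mul (hb.pow n)
        have h2 : 1 * (d - n) + 1 * n = d := by omega
        rw [h2] at h1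
        exact h1
      · change ρ (a ^ (d - n) * b ^ n) = _
        rw [map_mul, map_pow, map_pow, ha1, hb1, one_pow, one_mul]
    · refine ⟨b ^ (2 * d - n) * c ^ (n - d), ?_, ?_⟩
      · have h1 := (hb.pow (2 * d - n)).mul (hc.pow (n - d))
        have h2 : 1 * (2 * d - n) + 1 * (n - d) = d := by omega
        rw [h2] at h1
        exact h1
      · change ρ (b ^ (2 * d - n) * c ^ (n - d)) = _
        rw [map_mul, map_pow, map_pow, hb1, hc1, ← pow_mul, ← pow_add]
        congr 1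
        omega)
  simpa using this

theorem choose_aux (d : ℕ) : (d + 4).choose 2 = (2 * d + 5) + (d + 2).choose 2 := by
  have h4 : (d + 4).choose 2 = (d + 3).choose 1 + (d + 3).choose 2 := rfl
  have h5 : (d + 3).choose 2 = (d + 2).choose 1 + (d + 2).choose 2 := rfl
  rw [Nat.choose_one_right] at h4 h5
  omega

theorem RC.ker {ρ : MvPolynomial (Fin 3) K →ₐ[K] Polynomial K} {q : MvPolynomial (Fin 3) K}
    (h : RC ρ q) {d : ℕ} {F : MvPolynomial (Fin 3) K} (hF : F.IsHomogeneous (d + 2))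
    (h0 : ρ F = 0) : F ∈ mulS q d := by
  have h1 : mulS q d ≤ S3 K (d + 2) ⊓ LinearMap.ker (lm ρ) := by
    rintro _ ⟨b, hb, rfl⟩
    refine Submodule.mem_inf.2 ⟨?_, ?_⟩
    · have := h.hq.mul hb
      rw [add_comm] at this
      exact this
    · rw [LinearMap.mem_ker]
      change ρ (q * b) = 0
      rw [map_mul, h.ρq, zero_mul]
  have h2 := Submodule.eq_of_le_of_finrank_le h1 (by
    rw [dim_mulS h.q0]
    have h3 := fin_map_add (S3 K (d + 2)) (lm ρ)
    have h4 := h.le_map (d + 2)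
    rw [dim_S3] at h3
    have h5 := choose_aux d
    have h6 : d + 2 + 2 = d + 4 := rfl
    rw [h6] at h3
    omega)
  rw [h2]
  exact Submodule.mem_inf.2 ⟨hF, h0⟩

theorem RC.ker_le {ρ : MvPolynomial (Fin 3) K →ₐ[K] Polynomial K} {q : MvPolynomial (Fin 3) K}
    (h : RC ρ q) (d : ℕ) : finrank K (S3 K (d + 2) ⊓ LinearMap.ker (lm ρ) :
      Submodule K (MvPolynomial (Fin 3) K)) ≤ (d + 2).choose 2 := by
  rw [← dim_mulS h.q0 d]
  refine Submodule.finrank_mono fun F hF => ?_
  exact h.ker (Submodule.mem_inf.1 hF).1 (Submodule.mem_inf.1 hF).2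

end Pool.Agent.T2.H42
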